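import Pool.Agent.Run7.h469.GA.Main
import Pool.Agent.Results.MP_dd84fd_nt.AsymptoticEveryModulus

/-!
# Goldbach representations at ALL good rational approximations of almost every real number

Let `d ≥ 1`. For almost every `α` in `ℝ^d` (for all `ε > 0` and all `W`, `W'` at the same time) the following holds for ALL
integer vectors `(p_1, …, p_d, q)`, `q ≥ 1`, with `|α_i - p_i / q| ≤ (log q)^W / q^(1 + 1/d)` for all `i`, with finitely many
exceptions: ALL the even integers `n > 0` at a distance of at most `(log q)^W` from one of the integers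
`u_1 p_1 + … + u_d p_d + v q`, `(u, v) ≠ (0, 0)`, `|u_i|, |v| ≤ (log q)^W`, satisfy the asymptotic formula of Hardy and
Littlewood for the number of their representations as a sum of two primes, up to the relative error `ε`, also in windows, and
so the lower bound `g(n) ≥ (1 - ε) n / (log n)²` of the problem. For `d = 1` this applies to the numerators and the
denominators of all the convergents (and of all the intermediate fractions) of the continued fraction of almost every real
number, to the integers near their sums, differences, double values, and so on: an even denominator or numerator from some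
point on is always a sum of two primes. The vectors are sparse: for almost every `α` there are only `(log Q)^(O(1))` of them
with `q ≤ Q`.

Definitions used from the starting file `Results/MP_dd84fd_nt/AsymptoticEveryModulus`: `Formula ε W n`:
`|g n - HL n| ≤ ε HL n`, and `|count n y₁ y₂ - sing n (y₂ - y₁) / (log n)²| ≤ ε sing n (y₂ - y₁) / (log n)²` for all
`y₁ < y₂ ≤ n` with `y₂ - y₁ ≥ n / (log n)^W`, where `count n y₁ y₂` is the number of the primes `p`, `y₁ < p ≤ y₂`, for which
`n - p` is a prime, `g n` is the number of all the ordered representations, `HL n = sing n * n / (log n)²` is the prediction of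
Hardy and Littlewood, and `sing` is the singular series (`Pool.Agent.H560R3.GB`).

Proof. For fixed small `u`, `v`, `w` the number of the integer vectors `(p, q)` of size `2^j` for which `u p + v q + w` is
one of the few exceptions of Goldbach's problem (the theorem of van der Corput, Chudakov and Estermann with windows, from the
starting files) is at most `2^(j (d + 1)) / j^A`; so the union of the corresponding boxes has the measure `O(j^(-2))`, and the
lemma of Borel and Cantelli can be applied.
-/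

set_option autoImplicit false

namespace Pool.Agent.Results.MP_dd84fd_nt.AllGoodApproximations

open Finset MeasureTheory
open Pool.Agent.H560R3.GB (g HL sing)
open Pool.Agent.Results.MP_dd84fd_nt.AsymptoticEveryModulus (Formula count)

/-- `q ≥ 1`, and the rational tuple `p / q` approximates `α` up to `(log q)^W / q^(1 + 1/d)` in all coordinates. -/
def GoodApproximation (d W : ℕ) (α : Fin d → ℝ) (p : Fin d → ℤ) (q : ℕ) : Prop :=
  1 ≤ q ∧ ∀ i, |α i - p i / q| ≤ Real.log q ^ W / (q : ℝ) ^ (1 + 1 / (d : ℝ))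

/-- `n = u_1 p_1 + … + u_d p_d + v q + w` is positive, where `(u, v) ≠ (0, 0)` and all the integers `u_i`, `v`, `w` are at
most `(log q)^W` in absolute value. -/
def Near {d : ℕ} (W : ℕ) (p : Fin d → ℤ) (q n : ℕ) : Prop :=
  0 < n ∧ ∃ (u : Fin d → ℤ) (v w : ℤ), (u ≠ 0 ∨ v ≠ 0) ∧ (∀ i, (|u i| : ℝ) ≤ Real.log q ^ W) ∧
    (|v| : ℝ) ≤ Real.log q ^ W ∧ (|w| : ℝ) ≤ Real.log q ^ W ∧ (n : ℤ) = ∑ i, u i * p i + v * q + w

/-- the exceptions in Goldbach's problem are few -/
theorem thin (ε : ℝ) (hε : 0 < ε) (W : ℕ) : Run7.h469.GA.Thin (fun n => 2 ∣ n → Formula ε W n) := by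
  classical
  obtain ⟨P, hP⟩ : ∃ P : ℕ → Prop, P = fun n => 2 ∣ n → Formula ε W n := ⟨_, rfl⟩
  rw [← hP]
  intro A
  obtain ⟨x₀, h₀⟩ := Pool.Agent.R460.GH.class_asymp (Formula ε W) ε hε W
    (Pool.Agent.Results.MP_dd84fd_nt.AsymptoticEveryModulus.formula_of ε W) (1 / 3) (by norm_num) A 0
  obtain ⟨n₀, hn₀⟩ := exists_nat_ge x₀
  refine ⟨n₀ + 1, fun X hX => ?_⟩
  have hX1 : (1 : ℝ) ≤ X := by exact_mod_cast (by omega : 1 ≤ X)
  obtain ⟨hfin, hcard⟩ := h₀ X (hn₀.trans (by exact_mod_cast (by omega : n₀ ≤ X))) 1 le_rfl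
    (by push_cast; exact Real.one_le_rpow hX1 (by norm_num)) 0 (by simp)
  have e : (X : ℝ) / (((1 : ℕ) : ℝ) * Real.log (X : ℝ) ^ A) = X / Real.log (X : ℝ) ^ A := by
    rw [Nat.cast_one, one_mul]
  rw [e] at hcard
  refine le_trans ?_ hcard
  rw [Set.ncard_eq_toFinset_card _ hfin]
  apply Nat.cast_le.2
  apply card_le_card
  intro n hn
  obtain ⟨h0, h3⟩ := mem_filter.1 hn
  obtain ⟨h1, h2⟩ := mem_Icc.1 h0
  rw [hP] at h3
  push Not at h3
  rw [Set.Finite.mem_toFinset]
  exact ⟨by omega, by exact_mod_cast h2, h3.1, Int.modEq_one, h3.2⟩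

theorem formula_mono {ε ε' : ℝ} (h : ε ≤ ε') {W n : ℕ} (hn : Formula ε W n) : Formula ε' W n := by
  have hs := Pool.Agent.W93.GB.one_le_sing n
  constructor
  · refine hn.1.trans ?_
    apply mul_le_mul_of_nonneg_right h
    unfold HL
    positivity
  · intro y₁ y₂ h1 h2 h3
    refine (hn.2 y₁ y₂ h1 h2 h3).trans ?_
    apply mul_le_mul_of_nonneg_right h
    have : (0 : ℝ) ≤ (y₂ : ℝ) - y₁ := by
      have : (y₁ : ℝ) ≤ y₂ := by exact_mod_cast h1.le
      linarith
    positivity

/-- **All good approximations of almost every real tuple.** For almost all `α` in `ℝ^d`, for all `ε > 0`, `W` and `W'`,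
there are only finitely many pairs `(p, q)` such that `p / q` is a good approximation of `α` and some even integer `n` near a
small linear combination of the `p_i` and `q` does not satisfy the formula of Hardy and Littlewood (with the relative
error `ε`, also in windows) or does not satisfy the lower bound `g n ≥ (1 - ε) n / (log n)²`. -/
theorem result (d : ℕ) (hd : 1 ≤ d) : ∀ᵐ α : Fin d → ℝ, ∀ ε : ℝ, 0 < ε → ∀ W W' : ℕ,
    {z : (Fin d → ℤ) × ℕ | GoodApproximation d W α z.1 z.2 ∧ ∃ n : ℕ, Near W z.1 z.2 n ∧ Even n ∧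
      ¬ (Formula ε W' n ∧ (1 - ε) * (n / Real.log n ^ 2) ≤ (g n : ℝ))}.Finite := by
  have h1 : ∀ᵐ α : Fin d → ℝ, ∀ k W W' : ℕ, {z : (Fin d → ℤ) × ℕ | Run7.h469.GA.Approx d W α z.1 z.2 ∧
      ∃ n : ℕ, Run7.h469.GA.Near W z.1 z.2 n ∧ ¬ (2 ∣ n → Formula (1 / ((k : ℝ) + 1)) W' n)}.Finite := by
    rw [ae_all_iff]
    intro k
    rw [ae_all_iff]
    intro W
    rw [ae_all_iff]
    intro W'
    exact Run7.h469.GA.main _ (thin (1 / ((k : ℝ) + 1)) (by positivity) W') d W hd
  filter_upwards [h1] with α hα ε hε W W'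
  obtain ⟨k, hk⟩ := exists_nat_one_div_lt (lt_min hε (show (0 : ℝ) < 1 by norm_num))
  have hkε : 1 / ((k : ℝ) + 1) ≤ ε := hk.le.trans (min_le_left _ _)
  have hk1 : 1 / ((k : ℝ) + 1) ≤ 1 := hk.le.trans (min_le_right _ _)
  refine (hα k W W').subset ?_
  rintro ⟨p, q⟩ ⟨h2, n, h3, h4, h5⟩
  refine ⟨h2, n, h3, fun hcon => h5 ?_⟩
  have h6 := hcon h4.two_dvd
  refine ⟨formula_mono hkε h6, ?_⟩
  have hs := Pool.Agent.W93.GB.one_le_sing n
  have h7 := h6.1
  rw [abs_le] at h7
  have h8 : (n : ℝ) / Real.log n ^ 2 ≤ HL n := by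
    have e : HL n = sing n * (n / Real.log n ^ 2) := by unfold HL; ring
    rw [e]
    have : (0 : ℝ) ≤ n / Real.log n ^ 2 := by positivity
    nlinarith
  have h9 : (0 : ℝ) ≤ (n : ℝ) / Real.log n ^ 2 := by positivity
  have h10 : (1 - 1 / ((k : ℝ) + 1)) * HL n ≤ g n := by linarith [h7.1]
  calc (1 - ε) * ((n : ℝ) / Real.log n ^ 2) ≤ (1 - 1 / ((k : ℝ) + 1)) * ((n : ℝ) / Real.log n ^ 2) :=
        mul_le_mul_of_nonneg_right (by linarith) h9
    _ ≤ (1 - 1 / ((k : ℝ) + 1)) * HL n := mul_le_mul_of_nonneg_left h8 (by linarith)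
    _ ≤ g n := h10

end Pool.Agent.Results.MP_dd84fd_nt.AllGoodApproximations
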